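import Mathlib

/-!
Basic facts on the logarithmic derivative `z F'(z) / F(z)` of an entire function.
-/

set_option autoImplicit false

open Set Filter Topology Metric

namespace Pool.Agent.H768Z.MaxMod

/-- `z F'(z) / F(z)`. -/
noncomputable def lg (F : ℂ → ℂ) (z : ℂ) : ℂ := z * deriv F z / F z

/-- An entire function, not vanishing at the origin and not constant. -/
structure Good (F : ℂ → ℂ) : Prop where
  diff : Differentiable ℂ F
  ne0 : F 0 ≠ 0
  nonconst : ¬ ∀ z, F z = F 0

theorem countable_zeros_on {W : ℂ → ℂ} {U : Set ℂ} (hU : IsPreconnected U)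
    (hW : AnalyticOnNhd ℂ W U) (h : ∃ z ∈ U, W z ≠ 0) : {z | z ∈ U ∧ W z = 0}.Countable := by
  obtain ⟨z0, hz0, hne⟩ := h
  have hd : DiscreteTopology {z | z ∈ U ∧ W z = 0} := by
    rw [discreteTopology_subtype_iff]
    intro z hz
    rcases (hW z hz.1).eventually_eq_zero_or_eventually_ne_zero with h1 | h1
    · exact absurd (hW.eqOn_zero_of_preconnected_of_eventuallyEq_zero hU hz.1 h1 hz0) hne
    · rw [inf_principal_eq_bot]
      filter_upwards [h1] with w hw
      exact fun h2 => hw h2.2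
  exact countable_of_Lindelof_of_discrete (X := {z | z ∈ U ∧ W z = 0})

theorem countable_zeros {W : ℂ → ℂ} (hW : Differentiable ℂ W) (h : ∃ z, W z ≠ 0) :
    {z | W z = 0}.Countable := by
  obtain ⟨z, hz⟩ := h
  have := countable_zeros_on (U := univ) isPreconnected_univ
    (fun w _ => hW.analyticAt w) ⟨z, mem_univ z, hz⟩
  simpa using this

theorem exists_mem_not_mem {U B : Set ℂ} (hU : IsOpen U) (hne : U.Nonempty) (hB : B.Countable) :
    ∃ z ∈ U, z ∉ B := by
  obtain ⟨z, h1, h2⟩ := (hB.dense_compl ℂ).inter_open_nonempty U hU hne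
  exact ⟨z, h1, h2⟩

theorem preconnected_ball_diff (c : ℂ) {r : ℝ} (hr : 0 < r) {B : Set ℂ} (hB : B.Countable) :
    IsPreconnected (ball c r \ B) := by
  set e : OpenPartialHomeomorph ℂ ℂ := OpenPartialHomeomorph.univBall c r with he
  have hs : e.source = univ := OpenPartialHomeomorph.univBall_source c r
  have ht : e.target = ball c r := OpenPartialHomeomorph.univBall_target c hr
  have hinj : Function.Injective e := by
    have := e.injOn
    rw [hs] at this
    exact injOn_univ.1 this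
  have hc : (e ⁻¹' B).Countable := hB.preimage_of_injOn hinj.injOn
  have h1 : IsPreconnected (e ⁻¹' B)ᶜ :=
    (hc.isConnected_compl_of_one_lt_rank (by simp)).isPreconnected
  have h2 : ContinuousOn e (e ⁻¹' B)ᶜ := e.continuousOn.mono (by rw [hs]; exact subset_univ _)
  have h3 := h1.image e h2
  convert h3 using 1
  ext z
  constructor
  · rintro ⟨hz1, hz2⟩
    have hz3 : z ∈ e.target := by rw [ht]; exact hz1
    refine ⟨e.symm z, ?_, e.right_inv hz3⟩
    simp only [mem_compl_iff, mem_preimage, e.right_inv hz3]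
    exact hz2
  · rintro ⟨w, hw, rfl⟩
    refine ⟨?_, hw⟩
    rw [← ht]
    exact e.map_source (by rw [hs]; trivial)

variable {F : ℂ → ℂ}

theorem Good.countable_zeros (hF : Good F) : {z | F z = 0}.Countable :=
  MaxMod.countable_zeros hF.diff ⟨0, hF.ne0⟩

theorem Good.analyticAt_lg (hF : Good F) {z : ℂ} (hz : F z ≠ 0) : AnalyticAt ℂ (lg F) z := by
  unfold lg
  exact (analyticAt_id.mul (hF.diff.analyticAt z).deriv).div (hF.diff.analyticAt z) hz

theorem lg_zero (F : ℂ → ℂ) : lg F 0 = 0 := by simp [lg]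

theorem Good.diff_deriv (hF : Good F) : Differentiable ℂ (deriv F) :=
  fun z => (hF.diff.analyticAt z).deriv.differentiableAt

theorem Good.countable_fibre (hF : Good F) (c : ℂ) : {z | F z ≠ 0 ∧ lg F z = c}.Countable := by
  have h1 : {z | z * deriv F z - c * F z = 0}.Countable := by
    apply MaxMod.countable_zeros
    · exact (differentiable_id.mul hF.diff_deriv).sub (hF.diff.const_mul c)
    · by_contra hcon
      push Not at hcon
      have hc : c = 0 := by
        have := hcon 0
        simpa [hF.ne0] using this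
      have h2 : {z | deriv F z = 0}.Countable := by
        apply MaxMod.countable_zeros hF.diff_deriv
        by_contra h3
        push Not at h3
        exact hF.nonconst fun z => is_const_of_deriv_eq_zero hF.diff h3 z 0
      obtain ⟨z, -, hz⟩ := exists_mem_not_mem isOpen_univ univ_nonempty
        (h2.union (countable_singleton 0))
      have h4 := hcon z
      simp only [hc, zero_mul, sub_zero, mul_eq_zero] at h4
      simp only [mem_union, mem_ofPred_eq, mem_singleton_iff, not_or] at hz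
      tauto
  refine h1.mono ?_
  rintro z ⟨hz1, hz2⟩
  simp only [mem_ofPred_eq]
  rw [← hz2, lg]
  field_simp
  ring

theorem Good.countable_crit (hF : Good F) : {z | F z ≠ 0 ∧ deriv (lg F) z = 0}.Countable := by
  have hU : IsPreconnected {z | F z = 0}ᶜ :=
    (hF.countable_zeros.isConnected_compl_of_one_lt_rank (by simp)).isPreconnected
  have h1 := countable_zeros_on (W := deriv (lg F)) hU
    (fun z hz => (hF.analyticAt_lg hz).deriv) (by
      by_contra hcon
      push Not at hcon
      have h2 : ∀ᶠ z in 𝓝 (0 : ℂ), F z ≠ 0 := hF.diff.continuous.continuousAt.eventually_ne hF.ne0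
      obtain ⟨r, hr, h3⟩ := Metric.eventually_nhds_iff_ball.1 h2
      have h4 : ∀ z ∈ ball (0 : ℂ) r, lg F z = lg F 0 := by
        intro z hz
        refine (convex_ball (0 : ℂ) r).is_const_of_fderivWithin_eq_zero (𝕜 := ℂ)
          (fun w hw => (hF.analyticAt_lg (h3 w hw)).differentiableAt.differentiableWithinAt)
          (fun w hw => ?_) hz (mem_ball_self hr)
        rw [fderivWithin_of_isOpen isOpen_ball hw]
        ext
        simp [hcon w (h3 w hw)]
      obtain ⟨z, hz1, hz2⟩ := exists_mem_not_mem isOpen_ball ⟨0, mem_ball_self hr⟩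
        (hF.countable_fibre (lg F 0))
      exact hz2 ⟨h3 z hz1, h4 z hz1⟩)
  exact h1

/-- The logarithmic derivative blows up at the zeros. -/
theorem Good.pole (hF : Good F) {a : ℂ} (ha : a ≠ 0) (hFa : F a = 0) (C : ℝ) :
    ∀ᶠ z in 𝓝 a, F z ≠ 0 → C < ‖lg F z‖ := by
  have h1 : ¬ ∀ᶠ z in 𝓝 a, F z = 0 := by
    intro h
    have := (AnalyticOnNhd.eqOn_zero_of_preconnected_of_eventuallyEq_zero
      (fun w _ => hF.diff.analyticAt w) isPreconnected_univ (mem_univ a) h) (mem_univ 0)
    exact hF.ne0 this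
  obtain ⟨n, G, hG, hGa, hFG⟩ :=
    (hF.diff.analyticAt a).exists_eventuallyEq_pow_smul_nonzero_iff.2 h1
  have hn : n ≠ 0 := by
    rintro rfl
    have := hFG.self_of_nhds
    simp [hFa] at this
    exact hGa this.symm
  obtain ⟨k, rfl⟩ := Nat.exists_eq_succ_of_ne_zero hn
  have hd : ∀ᶠ z in 𝓝 a, deriv F z = ((k + 1 : ℕ) : ℂ) * (z - a) ^ k * G z
      + (z - a) ^ (k + 1) * deriv G z := by
    have h2 : deriv F =ᶠ[𝓝 a] deriv (fun z => (z - a) ^ (k + 1) • G z) :=
      EventuallyEq.deriv hFG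
    filter_upwards [h2, hG.eventually_analyticAt] with z hz hGz
    rw [hz]
    have h3 : HasDerivAt (fun z => (z - a) ^ (k + 1) * G z)
        (((k + 1 : ℕ) : ℂ) * (z - a) ^ k * 1 * G z + (z - a) ^ (k + 1) * deriv G z) z :=
      (((hasDerivAt_id z).sub_const a).pow (k + 1)).mul hGz.differentiableAt.hasDerivAt
    simp only [smul_eq_mul]
    rw [h3.deriv]
    ring
  set H : ℂ → ℂ := fun z => z * (((k + 1 : ℕ) : ℂ) + (z - a) * deriv G z / G z) with hH
  have hHc : ContinuousAt H a := by
    have := hG.continuousAt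
    have := hG.deriv.continuousAt
    exact continuousAt_id.mul (continuousAt_const.add
      (((continuousAt_id.sub continuousAt_const).mul hG.deriv.continuousAt).div hG.continuousAt hGa))
  have hHa : H a ≠ 0 := by
    simp only [hH, sub_self, zero_mul, zero_div, add_zero]
    exact mul_ne_zero ha (by exact_mod_cast Nat.succ_ne_zero k)
  have h5 : ∀ᶠ z in 𝓝 a, C * ‖z - a‖ < ‖H z‖ := by
    apply ContinuousAt.eventually_lt
    · fun_prop
    · exact hHc.norm
    · simpa using hHa
  filter_upwards [hd, hFG, h5, hG.continuousAt.eventually_ne hGa] with z hz1 hz2 hz3 hz4 hz5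
  have hza : z - a ≠ 0 := by
    intro h
    apply hz5
    rw [hz2, h]
    simp
  have h6 : H z = lg F z * (z - a) := by
    simp only [hH, lg, hz1, hz2, smul_eq_mul]
    field_simp
    ring
  rw [h6, norm_mul] at hz3
  exact lt_of_mul_lt_mul_right hz3 (norm_nonneg _)

/-- Behaviour near the origin: a lower bound and bounded valence. -/
theorem Good.near_zero (hF : Good F) : ∃ (e : ℕ) (c ρ : ℝ), 0 < c ∧ 0 < ρ ∧
    (∀ z : ℂ, ‖z‖ ≤ ρ → F z ≠ 0 ∧ c * ‖z‖ ^ e ≤ ‖lg F z‖) ∧
    ∀ (t : ℂ) (s : Finset ℂ), (∀ z ∈ s, ‖z‖ ≤ ρ ∧ lg F z = t) → s.card ≤ e := by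
  have h0 : ∀ᶠ z in 𝓝 (0 : ℂ), F z ≠ 0 := hF.diff.continuous.continuousAt.eventually_ne hF.ne0
  have h1 : ¬ ∀ᶠ z in 𝓝 (0 : ℂ), lg F z = 0 := by
    intro h
    obtain ⟨r, hr, h3⟩ := Metric.eventually_nhds_iff_ball.1 (h0.and h)
    obtain ⟨z, hz1, hz2⟩ := exists_mem_not_mem isOpen_ball ⟨0, mem_ball_self hr⟩
      (hF.countable_fibre 0)
    exact hz2 (h3 z hz1)
  obtain ⟨e, k, hk, hk0, hgk⟩ :=
    (hF.analyticAt_lg hF.ne0).exists_eventuallyEq_pow_smul_nonzero_iff.2 h1
  have he : e ≠ 0 := by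
    rintro rfl
    have := hgk.self_of_nhds
    simp [lg_zero] at this
    exact hk0 this.symm
  set ψ : ℂ → ℂ := fun z => z * Complex.exp (Complex.log (k z / k 0) / e) with hψ
  have hq : AnalyticAt ℂ (fun z => Complex.exp (Complex.log (k z / k 0) / e)) 0 := by
    have h2 : AnalyticAt ℂ (fun z => k z / k 0) 0 := hk.div analyticAt_const hk0
    have h3 : AnalyticAt ℂ (fun z => Complex.log (k z / k 0)) 0 :=
      h2.clog (by simp [div_self hk0])
    exact (h3.div analyticAt_const (by exact_mod_cast he)).cexp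
  have hψa : AnalyticAt ℂ ψ 0 := analyticAt_id.mul hq
  have hψd : deriv ψ 0 ≠ 0 := by
    have h4 := (hasDerivAt_id (0 : ℂ)).mul hq.differentiableAt.hasDerivAt
    have h5 : deriv ψ 0 = _ := h4.deriv
    rw [h5]
    simp
  have hli := hψa.hasStrictDerivAt.eventually_left_inverse hψd
  have h6 : ∀ᶠ z in 𝓝 (0 : ℂ), ‖k 0‖ / 2 < ‖k z‖ := by
    apply ContinuousAt.eventually_lt continuousAt_const hk.continuousAt.norm
    have := norm_pos_iff.2 hk0
    linarith
  obtain ⟨r, hr, h7⟩ := Metric.eventually_nhds_iff_ball.1 (h0.and (hgk.and (hli.and h6)))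
  have hk0' : 0 < ‖k 0‖ := norm_pos_iff.2 hk0
  have hmem : ∀ z : ℂ, ‖z‖ ≤ r / 2 → z ∈ ball (0 : ℂ) r := fun z hz => by
    rw [mem_ball_zero_iff]; linarith
  refine ⟨e, ‖k 0‖ / 2, r / 2, by positivity, by positivity, fun z hz => ?_, fun t s hs => ?_⟩
  · obtain ⟨a1, a2, -, a4⟩ := h7 z (hmem z hz)
    refine ⟨a1, ?_⟩
    rw [a2, sub_zero, smul_eq_mul, norm_mul, norm_pow, mul_comm]
    exact mul_le_mul_of_nonneg_left a4.le (by positivity)
  · classical
    have h8 : ∀ z ∈ s, ψ z ∈ (Polynomial.nthRoots e (t / k 0)).toFinset := by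
      intro z hz
      obtain ⟨-, a2, -, a4⟩ := h7 z (hmem z (hs z hz).1)
      have hkz : k z ≠ 0 := by
        rw [← norm_pos_iff]; linarith
      rw [Multiset.mem_toFinset, Polynomial.mem_nthRoots (Nat.pos_of_ne_zero he)]
      rw [← (hs z hz).2, a2, hψ]
      simp only [mul_pow, sub_zero, smul_eq_mul]
      rw [← Complex.exp_nat_mul, mul_div_cancel₀ _ (by exact_mod_cast he),
        Complex.exp_log (div_ne_zero hkz hk0)]
      ring
    have h9 : InjOn ψ s := by
      intro z hz w hw hzw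
      have a3 := (h7 z (hmem z (hs z hz).1)).2.2.1
      have b3 := (h7 w (hmem w (hs w hw).1)).2.2.1
      rw [← a3, ← b3, hzw]
    exact (Finset.card_le_card_of_injOn ψ h8 h9).trans
      ((Multiset.toFinset_card_le _).trans (Polynomial.card_nthRoots _ _))

end Pool.Agent.H768Z.MaxMod
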