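import Pool.Agent.H768Z.MaxModA

/-!
A union of tracts of `z F'/F` over the value `0` cannot have polynomial decay only.
-/

set_option autoImplicit false

open Set Filter Topology Metric

namespace Pool.Agent.H768Z.MaxMod

theorem sqrt_incr {a b M : ℝ} (hab : a ≤ b) (ha : |a| ≤ M) (hb : |b| ≤ M) :
    b - a ≤ 2 * √M * ((√b - √(-b)) - (√a - √(-a))) := by
  have e : ∀ x : ℝ, x = √x ^ 2 - √(-x) ^ 2 := by
    intro x
    rcases le_total 0 x with h | h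
    · rw [Real.sq_sqrt h, Real.sqrt_eq_zero_of_nonpos (by linarith : -x ≤ 0)]; ring
    · rw [Real.sq_sqrt (by linarith : 0 ≤ -x), Real.sqrt_eq_zero_of_nonpos h]; ring
  have h1 : √a ≤ √b := Real.sqrt_le_sqrt hab
  have h2 : √(-b) ≤ √(-a) := Real.sqrt_le_sqrt (by linarith)
  have h3 : √a ≤ √M := Real.sqrt_le_sqrt ((le_abs_self a).trans ha)
  have h4 : √b ≤ √M := Real.sqrt_le_sqrt ((le_abs_self b).trans hb)
  have h5 : √(-a) ≤ √M := Real.sqrt_le_sqrt ((neg_le_abs a).trans ha)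
  have h6 : √(-b) ≤ √M := Real.sqrt_le_sqrt ((neg_le_abs b).trans hb)
  have ea := e a
  have eb := e b
  nlinarith [mul_nonneg (sub_nonneg.2 h1) (by linarith : 0 ≤ 2 * √M - √a - √b),
    mul_nonneg (sub_nonneg.2 h2) (by linarith : 0 ≤ 2 * √M - √(-a) - √(-b))]

theorem sqrt_add_one_le (x : ℝ) : √(x + 1) ≤ √x + 1 := by
  rw [Real.sqrt_le_left (by positivity)]
  rcases le_total 0 x with h | h
  · nlinarith [Real.sq_sqrt h, Real.sqrt_nonneg x]
  · nlinarith [Real.sqrt_nonneg x]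

theorem prod_lower {n : ℕ} (hn : 0 < n) (y : ℝ) :
    Real.exp (-16) ^ n ≤ ∏ k ∈ Finset.range n, max (1 / (n : ℝ)) |y - (1 + k / n)| := by
  have hn' : (0 : ℝ) < n := by exact_mod_cast hn
  set σ : ℕ → ℝ := fun k => √(1 + k / n - y) - √(-(1 + k / n - y)) with hσ
  have h1 : ∀ k : ℕ, Real.exp (-8 * n * (σ (k + 1) - σ k)) ≤
      max (1 / (n : ℝ)) |y - (1 + k / n)| := by
    intro k
    set m := max (1 / (n : ℝ)) |y - (1 + k / n)| with hm
    have hm1 : 1 / (n : ℝ) ≤ m := le_max_left _ _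
    have hm2 : |y - (1 + k / n)| ≤ m := le_max_right _ _
    have hm0 : 0 < m := lt_of_lt_of_le (by positivity) hm1
    have hk : (1 + ((k + 1 : ℕ) : ℝ) / n - y) = (1 + k / n - y) + 1 / n := by
      push_cast; ring
    have ha : |1 + (k : ℝ) / n - y| ≤ 4 * m := by
      rw [abs_sub_comm]; linarith
    have hb : |(1 + (k : ℝ) / n - y) + 1 / n| ≤ 4 * m := by
      refine (abs_add_le _ _).trans ?_
      rw [abs_sub_comm, abs_of_pos (by positivity : (0 : ℝ) < 1 / n)]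
      linarith
    have h2 := sqrt_incr (by linarith [show (0 : ℝ) < 1 / n by positivity]) ha hb
    have h3 : √(4 * m) = 2 * √m := by
      rw [Real.sqrt_mul (by norm_num), show (4 : ℝ) = 2 ^ 2 by norm_num,
        Real.sqrt_sq (by norm_num)]
    have h4 : σ (k + 1) - σ k = (√(1 + k / n - y + 1 / n) - √(-(1 + k / n - y + 1 / n))) -
        (√(1 + k / n - y) - √(-(1 + k / n - y))) := by
      simp only [hσ, hk]
    rw [h3, ← h4] at h2
    have hs : 0 < √m := Real.sqrt_pos.2 hm0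
    have h5 : 1 / √m ≤ 4 * n * (σ (k + 1) - σ k) := by
      rw [div_le_iff₀ hs]
      have : 1 / (n : ℝ) ≤ 2 * (2 * √m) * (σ (k + 1) - σ k) := by linarith
      rw [div_le_iff₀ hn'] at this
      linarith
    have h6 : 1 / √m ≤ Real.exp (1 / √m) := by linarith [Real.add_one_le_exp (1 / √m)]
    have h7 : Real.exp (-(1 / √m)) ≤ √m := by
      rw [Real.exp_neg, inv_le_comm₀ (Real.exp_pos _) hs, inv_eq_one_div]
      exact h6
    calc Real.exp (-8 * n * (σ (k + 1) - σ k)) ≤ Real.exp (-(1 / √m) + -(1 / √m)) :=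
          Real.exp_le_exp.2 (by linarith)
      _ = Real.exp (-(1 / √m)) * Real.exp (-(1 / √m)) := Real.exp_add _ _
      _ ≤ √m * √m := mul_le_mul h7 h7 (Real.exp_pos _).le hs.le
      _ = m := Real.mul_self_sqrt hm0.le
  refine le_trans ?_ (Finset.prod_le_prod (fun k _ => (Real.exp_pos _).le) fun k _ => h1 k)
  rw [← Real.exp_sum, ← Finset.mul_sum, Finset.sum_range_sub, ← Real.exp_nat_mul]
  apply Real.exp_le_exp.2
  have h8 : σ n - σ 0 ≤ 2 := by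
    simp only [hσ, div_self hn'.ne', Nat.cast_zero, zero_div, add_zero]
    have a1 := sqrt_add_one_le (1 - y)
    have a2 := sqrt_add_one_le (-(1 + 1 - y))
    rw [show 1 - y + 1 = 1 + 1 - y by ring] at a1
    rw [show -(1 + 1 - y) + 1 = -(1 - y) by ring] at a2
    linarith
  nlinarith

variable {F : ℂ → ℂ}

/-- If `|z F'/F| ≤ 1/2` on arbitrarily large circles, then `F` is constant. -/
theorem Good.circles (hF : Good F)
    (h : ∀ r : ℝ, ∃ s : ℝ, r ≤ s ∧ ∀ ζ : ℂ, ‖ζ‖ = s → F ζ ≠ 0 ∧ ‖lg F ζ‖ ≤ 1 / 2) : False := by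
  have hb : ∀ w, ‖F w‖ ≤ 2 * ‖F 0‖ := by
    intro w
    obtain ⟨s, hs, h1⟩ := h (‖w‖ + 1)
    have hs0 : 0 < s := by linarith [norm_nonneg w]
    obtain ⟨p, hp, hmax⟩ := (isCompact_closedBall (0 : ℂ) s).exists_isMaxOn
      ⟨0, mem_closedBall_self hs0.le⟩ hF.diff.continuous.norm.continuousOn
    have h2 : ∀ ζ ∈ frontier (ball (0 : ℂ) s), ‖deriv F ζ‖ ≤ ‖F p‖ / (2 * s) := by
      intro ζ hζ
      rw [frontier_ball _ hs0.ne', mem_sphere_zero_iff_norm] at hζ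
      obtain ⟨a1, a2⟩ := h1 ζ hζ
      have a3 : ‖F ζ‖ ≤ ‖F p‖ := hmax (mem_closedBall_zero_iff.2 hζ.le)
      rw [lg, norm_div, norm_mul, hζ, div_le_iff₀ (norm_pos_iff.2 a1)] at a2
      rw [le_div_iff₀ (by positivity)]
      linarith
    have h3 : ∀ ζ ∈ closedBall (0 : ℂ) s, ‖deriv F ζ‖ ≤ ‖F p‖ / (2 * s) := by
      intro ζ hζ
      refine Complex.norm_le_of_forall_mem_frontier_norm_le isBounded_ball
        hF.diff_deriv.diffContOnCl h2 ?_
      rwa [closure_ball _ hs0.ne']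
    have h4 := (convex_closedBall (0 : ℂ) s).norm_image_sub_le_of_norm_deriv_le
      (fun z _ => hF.diff z) h3 (mem_closedBall_self hs0.le) hp
    have h5 : ‖p‖ ≤ s := mem_closedBall_zero_iff.1 hp
    have h6 : ‖F p‖ / (2 * s) * ‖p - 0‖ ≤ ‖F p‖ / 2 := by
      rw [sub_zero]
      calc ‖F p‖ / (2 * s) * ‖p‖ ≤ ‖F p‖ / (2 * s) * s := by gcongr
        _ = ‖F p‖ / 2 := by field_simp
    have h7 : ‖F p‖ ≤ ‖F p - F 0‖ + ‖F 0‖ := by
      simpa using norm_add_le (F p - F 0) (F 0)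
    have h8 : ‖F w‖ ≤ ‖F p‖ := hmax (mem_closedBall_zero_iff.2 (by linarith))
    linarith
  apply hF.nonconst
  intro z
  refine hF.diff.apply_eq_apply_of_bounded ?_ z 0
  rw [isBounded_iff_forall_norm_le]
  exact ⟨2 * ‖F 0‖, by rintro _ ⟨w, rfl⟩; exact hb w⟩

theorem Good.tract (hF : Good F) {U : Set ℂ} (hU : IsOpen U) {ρ ε c : ℝ} {e : ℕ} (hρ : 0 < ρ)
    (hc : 0 < c) (hε : 0 < ε) (hε1 : ε ≤ 1 / 2)
    (h1 : ∀ ζ ∈ U, ρ ≤ ‖ζ‖ ∧ F ζ ≠ 0 ∧ ‖lg F ζ‖ < ε ∧ c ≤ ‖lg F ζ‖ * ‖ζ‖ ^ e)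
    (h2 : ∀ ζ ∈ closure U, F ζ ≠ 0 → ‖lg F ζ‖ < ε → ζ ∈ U)
    (h3 : ∀ η > 0, ∃ ζ ∈ U, ‖lg F ζ‖ < η) : False := by
  classical
  by_cases hcirc : ∃ r0 : ℝ, ∀ s : ℝ, r0 ≤ s → ∃ ξ : ℂ, ‖ξ‖ = s ∧ ξ ∉ U
  swap
  · push Not at hcirc
    apply hF.circles
    intro r
    obtain ⟨s, hs, h⟩ := hcirc r
    exact ⟨s, hs, fun ζ hζ => ⟨(h1 ζ (h ζ hζ)).2.1, (h1 ζ (h ζ hζ)).2.2.1.le.trans hε1⟩⟩
  obtain ⟨r0, hr0⟩ := hcirc
  set κ : ℝ := Real.exp (-16) with hκ
  have hκ0 : 0 < κ := Real.exp_pos _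
  have hκ1 : κ ≤ 1 := Real.exp_le_one_iff.2 (by norm_num)
  obtain ⟨ζ0, hζ0, hsmall⟩ := h3 (ε / 2 * (κ / 3) ^ (e + 1)) (by positivity)
  have hq1 : (κ / 3) ^ (e + 1) ≤ 1 := pow_le_one₀ (by positivity) (by linarith)
  set r : ℝ := max (max r0 ‖ζ0‖) 1 with hr
  have hr1 : 1 ≤ r := le_max_right _ _
  have hr2 : r0 ≤ r := (le_max_left _ _).trans (le_max_left _ _)
  have hr3 : ‖ζ0‖ ≤ r := (le_max_right _ _).trans (le_max_left _ _)
  have hrpos : 0 < r := by linarith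
  set T : ℝ := max 3 (ε / 2 * r ^ e / c * (3 * κ) ^ (e + 1)) with hT
  have hT3 : 3 ≤ T := le_max_left _ _
  have hT4 : ε / 2 * r ^ e / c * (3 * κ) ^ (e + 1) ≤ T := le_max_right _ _
  set Ω : Set ℂ := {ζ | ζ ∈ U ∧ ‖ζ‖ < T * r ∧ ‖lg F ζ‖ < ε / 2} with hΩ
  have hgU : ContinuousOn (lg F) U := fun ζ hζ =>
    (hF.analyticAt_lg (h1 ζ hζ).2.1).continuousAt.continuousWithinAt
  have hΩo : IsOpen Ω := by
    rw [isOpen_iff_mem_nhds]
    rintro ζ ⟨a1, a2, a3⟩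
    have b1 : ∀ᶠ w in 𝓝 ζ, ‖w‖ < T * r := continuous_norm.continuousAt.eventually_lt_const a2
    have b2 : ∀ᶠ w in 𝓝 ζ, ‖lg F w‖ < ε / 2 :=
      (hF.analyticAt_lg (h1 ζ a1).2.1).continuousAt.norm.eventually_lt_const a3
    filter_upwards [hU.mem_nhds a1, b1, b2] with w c1 c2 c3 using ⟨c1, c2, c3⟩
  have hΩb : Bornology.IsBounded Ω :=
    (isBounded_ball (x := (0 : ℂ)) (r := T * r)).subset fun ζ hζ => mem_ball_zero_iff.2 hζ.2.1
  have hK : ∀ ζ ∈ closure Ω, ζ ∈ U ∧ ‖ζ‖ ≤ T * r ∧ ‖lg F ζ‖ ≤ ε / 2 := by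
    intro ζ hζ
    have a1 : ζ ∈ closure U := closure_mono (fun w hw => hw.1) hζ
    have a2 : ρ ≤ ‖ζ‖ :=
      closure_minimal (t := {w : ℂ | ρ ≤ ‖w‖}) (fun w hw => (h1 w hw).1)
        (isClosed_le continuous_const continuous_norm) a1
    have a3 : ‖ζ‖ ≤ T * r :=
      closure_minimal (t := {w : ℂ | ‖w‖ ≤ T * r}) (fun w hw => hw.2.1.le)
        (isClosed_le continuous_norm continuous_const) hζ
    have a4 : ζ ≠ 0 := by
      rintro rfl
      simp at a2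
      linarith
    have hfr := mem_closure_iff_frequently.1 hζ
    have a5 : F ζ ≠ 0 := by
      intro h0
      obtain ⟨w, w1, w2⟩ := (hfr.and_eventually (hF.pole a4 h0 ε)).exists
      have := w2 (h1 w w1.1).2.1
      linarith [(h1 w w1.1).2.2.1]
    have a6 : ‖lg F ζ‖ ≤ ε / 2 := by
      by_contra hcon
      push Not at hcon
      obtain ⟨w, w1, w2⟩ := (hfr.and_eventually
        ((hF.analyticAt_lg a5).continuousAt.norm.eventually_const_lt hcon)).exists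
      linarith [w1.2.2]
    exact ⟨h2 ζ a1 a5 (by linarith), a3, a6⟩
  obtain ⟨δ, hδ, hthick⟩ := hΩb.isCompact_closure.exists_thickening_subset_open hU
    (fun ζ hζ => (hK ζ hζ).1)
  obtain ⟨n, hn⟩ := exists_nat_gt (r / δ)
  have hn0 : (0 : ℝ) < n := lt_trans (by positivity) hn
  have hn1 : 0 < n := by exact_mod_cast hn0
  have hex : ∀ k : ℕ, ∃ ξ : ℂ, ‖ξ‖ = r * (1 + k / n) ∧ ξ ∉ U := fun k =>
    hr0 _ (by nlinarith [show (0 : ℝ) ≤ k / n by positivity])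
  choose ξ hξ1 hξ2 using hex
  set P : ℂ → ℂ := fun ζ => ∏ k ∈ Finset.range n, (ζ - ξ k) / r with hP
  have hPn : ∀ ζ, ‖P ζ‖ = ∏ k ∈ Finset.range n, ‖ζ - ξ k‖ / r := by
    intro ζ
    simp only [hP, norm_prod, norm_div, Complex.norm_real, Real.norm_eq_abs, abs_of_pos hrpos]
  have hPd : Differentiable ℂ P := by
    simp only [hP]
    fun_prop
  have hPlow : ∀ ζ ∈ closure Ω, κ ^ n ≤ ‖P ζ‖ := by
    intro ζ hζ
    rw [hPn]
    refine (prod_lower hn1 (‖ζ‖ / r)).trans (Finset.prod_le_prod (fun k _ => by positivity)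
      fun k _ => max_le ?_ ?_)
    · have b1 : δ ≤ ‖ζ - ξ k‖ := by
        by_contra hcon
        push Not at hcon
        apply hξ2 k
        apply hthick
        rw [mem_thickening_iff]
        exact ⟨ζ, hζ, by rwa [dist_comm, dist_eq_norm]⟩
      rw [div_le_div_iff₀ hn0 hrpos]
      rw [div_lt_iff₀ hδ] at hn
      nlinarith
    · have b2 := abs_norm_sub_norm_le ζ (ξ k)
      rw [hξ1] at b2
      have b3 : ‖ζ‖ / r - (1 + k / n) = (‖ζ‖ - r * (1 + k / n)) / r := by field_simp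
      rw [b3, abs_div, abs_of_pos hrpos]
      gcongr
  have hg0 : ∀ ζ ∈ U, 0 < ‖lg F ζ‖ := by
    intro ζ hζ
    rcases (norm_nonneg (lg F ζ)).eq_or_lt with h | h
    · have := (h1 ζ hζ).2.2.2
      rw [← h] at this
      linarith
    · exact h
  set G : ℂ → ℂ := fun ζ => (((ε / 2 : ℝ) : ℂ) / lg F ζ) ^ n * (((κ ^ n : ℝ) : ℂ) / P ζ) ^ (e + 1)
    with hG
  have hGn : ∀ ζ, ‖G ζ‖ = (ε / 2 / ‖lg F ζ‖) ^ n * (κ ^ n / ‖P ζ‖) ^ (e + 1) := by
    intro ζ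
    simp only [hG, norm_mul, norm_pow, norm_div, Complex.norm_real, Real.norm_eq_abs]
    rw [abs_of_pos hε, abs_of_pos hκ0, abs_two]
  have hGd : DiffContOnCl ℂ G Ω := by
    apply DifferentiableOn.diffContOnCl
    intro ζ hζ
    have a1 := (hK ζ hζ).1
    have a2 : P ζ ≠ 0 := by
      rw [← norm_pos_iff]
      exact lt_of_lt_of_le (by positivity) (hPlow ζ hζ)
    have a3 : lg F ζ ≠ 0 := norm_pos_iff.1 (hg0 ζ a1)
    have a4 := (hF.analyticAt_lg (h1 ζ a1).2.1).differentiableAt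
    apply DifferentiableAt.differentiableWithinAt
    exact (((differentiableAt_const _).div a4 a3).pow n).mul
      (((differentiableAt_const _).div (hPd ζ) a2).pow (e + 1))
  have hfront : ∀ ζ ∈ frontier Ω, ‖G ζ‖ ≤ 1 := by
    intro ζ hζ
    rw [hΩo.frontier_eq] at hζ
    obtain ⟨a1, a2, a3⟩ := hK ζ hζ.1
    have a4 := hPlow ζ hζ.1
    have a5 : 0 < κ ^ n := by positivity
    have a6 := hg0 ζ a1
    rw [hGn]
    rcases a2.eq_or_lt with h | h
    · have b1 : (T / 3) ^ n ≤ ‖P ζ‖ := by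
        rw [hPn]
        have : (T / 3) ^ n = ∏ _k ∈ Finset.range n, T / 3 := by
          rw [Finset.prod_const, Finset.card_range]
        rw [this]
        refine Finset.prod_le_prod (fun k _ => by positivity) fun k hk => ?_
        have c1 : (k : ℝ) / n ≤ 1 := by
          rw [div_le_one hn0]
          exact_mod_cast (Finset.mem_range.1 hk).le
        have c2 := norm_sub_norm_le ζ (ξ k)
        rw [h, hξ1] at c2
        rw [le_div_iff₀ hrpos]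
        nlinarith
      have hTpos : 0 < T := by linarith
      have b2 : κ ^ n / ‖P ζ‖ ≤ (3 * κ / T) ^ n := by
        calc κ ^ n / ‖P ζ‖ ≤ κ ^ n / (T / 3) ^ n := by gcongr
          _ = (3 * κ / T) ^ n := by rw [← div_pow]; congr 1; field_simp
      have b3 : ε / 2 / ‖lg F ζ‖ ≤ ε / 2 * (T * r) ^ e / c := by
        have := (h1 ζ a1).2.2.2
        rw [h] at this
        rw [div_le_div_iff₀ a6 hc]
        nlinarith
      calc (ε / 2 / ‖lg F ζ‖) ^ n * (κ ^ n / ‖P ζ‖) ^ (e + 1)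
          ≤ (ε / 2 * (T * r) ^ e / c) ^ n * ((3 * κ / T) ^ n) ^ (e + 1) := by gcongr
        _ = (ε / 2 * r ^ e / c * (3 * κ) ^ (e + 1) / T) ^ n := by
          rw [← pow_mul, mul_comm n (e + 1), pow_mul, ← mul_pow]
          congr 1
          rw [mul_pow, div_pow]
          field_simp
          ring
        _ ≤ 1 := pow_le_one₀ (by positivity) ((div_le_one hTpos).2 hT4)
    · have b1 : ε / 2 ≤ ‖lg F ζ‖ := by
        by_contra hcon
        push Not at hcon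
        exact hζ.2 ⟨a1, h, hcon⟩
      have b2 : ε / 2 / ‖lg F ζ‖ ≤ 1 := (div_le_one a6).2 b1
      have b3 : κ ^ n / ‖P ζ‖ ≤ 1 := (div_le_one (lt_of_lt_of_le a5 a4)).2 a4
      exact mul_le_one₀ (pow_le_one₀ (by positivity) b2) (by positivity)
        (pow_le_one₀ (by positivity) b3)
  have hζΩ : ζ0 ∈ Ω := ⟨hζ0, by nlinarith, by nlinarith⟩
  have hfin := Complex.norm_le_of_forall_mem_frontier_norm_le hΩb hGd hfront (subset_closure hζΩ)
  rw [hGn] at hfin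
  have d1 : ‖P ζ0‖ ≤ 3 ^ n := by
    rw [hPn]
    have : (3 : ℝ) ^ n = ∏ _k ∈ Finset.range n, (3 : ℝ) := by simp
    rw [this]
    refine Finset.prod_le_prod (fun k _ => by positivity) fun k hk => ?_
    have c1 : (k : ℝ) / n ≤ 1 := by
      rw [div_le_one hn0]
      exact_mod_cast (Finset.mem_range.1 hk).le
    have c2 := norm_sub_le ζ0 (ξ k)
    rw [hξ1] at c2
    rw [div_le_iff₀ hrpos]
    nlinarith
  have d2 : 0 < ‖P ζ0‖ := lt_of_lt_of_le (by positivity) (hPlow ζ0 (subset_closure hζΩ))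
  have d3 : (κ / 3) ^ n ≤ κ ^ n / ‖P ζ0‖ := by
    rw [div_pow]
    gcongr
  have d4 := hg0 ζ0 hζ0
  have d5 : 1 < ε / 2 / ‖lg F ζ0‖ * (κ / 3) ^ (e + 1) := by
    rw [div_mul_eq_mul_div, one_lt_div d4]
    exact hsmall
  have d6 : (ε / 2 / ‖lg F ζ0‖ * (κ / 3) ^ (e + 1)) ^ n ≤
      (ε / 2 / ‖lg F ζ0‖) ^ n * (κ ^ n / ‖P ζ0‖) ^ (e + 1) := by
    rw [mul_pow, ← pow_mul, mul_comm (e + 1) n, pow_mul]
    gcongr
  have d7 := one_lt_pow₀ d5 hn1.ne'
  linarith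

end Pool.Agent.H768Z.MaxMod
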