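import Pool.Agent.H768Z.MaxModB

/-!
The curve of tuples with a common value of the logarithmic derivative and a common product.
-/

set_option autoImplicit false

open Set Filter Topology Metric

namespace Pool.Agent.H768Z.MaxMod

variable {n : ℕ}

/-- Tuples of points: two rows of `n + 1` complex numbers. -/
abbrev Tup (n : ℕ) : Type := Bool → Fin (n + 1) → ℂ

/-- The common product. -/
def Rr (x : Tup n) : ℂ := x false 0 * x true 0

/-- The common value. -/
noncomputable def tt (F : Bool → ℂ → ℂ) (x : Tup n) : ℂ := lg (F false) (x false 0)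

/-- Regular tuples. -/
structure Reg (F : Bool → ℂ → ℂ) (x : Tup n) : Prop where
  ne : ∀ b j, F b (x b j) ≠ 0
  dne : ∀ b j, deriv (lg (F b)) (x b j) ≠ 0
  val : ∀ b j, lg (F b) (x b j) = tt F x
  prod : ∀ j, x false j * x true j = Rr x
  inj : ∀ b, Function.Injective (x b)

/-- Regular tuples that are limits of regular tuples with another product. -/
def Acc (F : Bool → ℂ → ℂ) (n : ℕ) : Set (Tup n) :=
  {x | Reg F x ∧ x ∈ closure {y | Reg F y ∧ Rr y ≠ Rr x}}

/-- Critical values. -/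
def CV (F : Bool → ℂ → ℂ) : Set ℂ :=
  ⋃ b, lg (F b) '' {z | F b z ≠ 0 ∧ deriv (lg (F b)) z = 0}

variable {F : Bool → ℂ → ℂ}

theorem Reg.prod' {x : Tup n} (h : Reg F x) (b : Bool) (j : Fin (n + 1)) :
    x b j * x (!b) j = Rr x := by
  cases b
  · exact h.prod j
  · rw [mul_comm]; exact h.prod j

theorem continuous_Rr : Continuous (Rr : Tup n → ℂ) := by
  unfold Rr
  fun_prop

theorem continuous_coord (b : Bool) (j : Fin (n + 1)) : Continuous fun x : Tup n => x b j := by
  fun_prop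

theorem countable_CV (hF : ∀ b, Good (F b)) : (CV F).Countable :=
  countable_iUnion fun b => (hF b).countable_crit.image _

theorem countable_pre_CV (hF : ∀ b, Good (F b)) (b : Bool) :
    {z | F b z ≠ 0 ∧ lg (F b) z ∈ CV F}.Countable := by
  have := (countable_CV hF).biUnion fun c _ => (hF b).countable_fibre c
  refine this.mono ?_
  rintro z ⟨h1, h2⟩
  simp only [mem_iUnion]
  exact ⟨_, h2, h1, rfl⟩

theorem acc_closed {x : Tup n} (hx : x ∈ closure (Acc F n)) (hr : Reg F x) : x ∈ Acc F n := by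
  refine ⟨hr, ?_⟩
  rw [_root_.mem_closure_iff] at hx ⊢
  intro O hO hxO
  obtain ⟨y, hyO, hy⟩ := hx O hO hxO
  by_cases h : Rr y = Rr x
  · obtain ⟨w, hwO, hw⟩ := _root_.mem_closure_iff.1 hy.2 O hO hyO
    exact ⟨w, hwO, hw.1, h ▸ hw.2⟩
  · exact ⟨y, hyO, hy.1, h⟩

theorem reg_of_closure (hF : ∀ b, Good (F b)) {x : Tup n} (hx : x ∈ closure (Acc F n))
    (h0 : ∀ b j, x b j ≠ 0) {b0 : Bool} {j0 : Fin (n + 1)} (h1 : F b0 (x b0 j0) ≠ 0)
    (h2 : lg (F b0) (x b0 j0) ∉ CV F) : x ∈ Acc F n := by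
  refine acc_closed hx ?_
  obtain ⟨u, hu, hlim⟩ := mem_closure_iff_seq_limit.1 hx
  have hc : ∀ b j, Tendsto (fun k => u k b j) atTop (𝓝 (x b j)) := fun b j =>
    ((continuous_coord b j).tendsto x).comp hlim
  set t := lg (F b0) (x b0 j0) with ht
  have htl : Tendsto (fun k => tt F (u k)) atTop (𝓝 t) := by
    have := ((hF b0).analyticAt_lg h1).continuousAt.tendsto.comp (hc b0 j0)
    refine this.congr fun k => ?_
    exact (hu k).1.val b0 j0
  have hne : ∀ b j, F b (x b j) ≠ 0 := by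
    intro b j hz
    have a1 := (hc b j).eventually ((hF b).pole (h0 b j) hz (‖t‖ + 1))
    have a2 := htl.norm.eventually_lt_const (show ‖t‖ < ‖t‖ + 1 by linarith)
    obtain ⟨k, k1, k2⟩ := (a1.and a2).exists
    have := k1 ((hu k).1.ne b j)
    rw [(hu k).1.val b j] at this
    linarith
  have hval : ∀ b j, lg (F b) (x b j) = t := by
    intro b j
    have a1 := ((hF b).analyticAt_lg (hne b j)).continuousAt.tendsto.comp (hc b j)
    exact tendsto_nhds_unique (a1.congr fun k => (hu k).1.val b j) htl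
  have hd : ∀ b j, deriv (lg (F b)) (x b j) ≠ 0 := by
    intro b j hz
    apply h2
    rw [← hval b j]
    exact mem_iUnion.2 ⟨b, _, ⟨hne b j, hz⟩, rfl⟩
  refine ⟨hne, hd, fun b j => (hval b j).trans (hval false 0).symm, fun j => ?_, fun b i j hij => ?_⟩
  · have a1 := (hc false j).mul (hc true j)
    exact tendsto_nhds_unique (a1.congr fun k => (hu k).1.prod j)
      ((continuous_Rr.tendsto x).comp hlim)
  · have hli := ((hF b).analyticAt_lg (hne b i)).hasStrictDerivAt.eventually_left_inverse (hd b i)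
    have a1 := (hc b i).eventually hli
    have hcj : Tendsto (fun k => u k b j) atTop (𝓝 (x b i)) := by rw [hij]; exact hc b j
    have a2 := hcj.eventually hli
    obtain ⟨k, k1, k2⟩ := (a1.and a2).exists
    apply (hu k).1.inj b
    rw [← k1, ← k2, (hu k).1.val b i, (hu k).1.val b j]

/-- Local parametrisation of the curve by the common value. -/
theorem local_param (hF : ∀ b, Good (F b)) {x : Tup n} (hx : x ∈ Acc F n) :
    ∃ ψ : ℂ → Tup n, ContinuousAt ψ (tt F x) ∧ ψ (tt F x) = x ∧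
      (∀ᶠ τ in 𝓝 (tt F x), ψ τ ∈ Acc F n) ∧ 𝓝 (Rr x) ≤ map (fun τ => Rr (ψ τ)) (𝓝 (tt F x)) ∧
      ∀ b j, ∀ᶠ ζ in 𝓝 (x b j), ψ (lg (F b) ζ) b j = ζ := by
  obtain ⟨hr, hacc⟩ := hx
  set t0 := tt F x with ht0
  have hA : ∀ b j, AnalyticAt ℂ (lg (F b)) (x b j) := fun b j => (hF b).analyticAt_lg (hr.ne b j)
  set ψ : ℂ → Tup n := fun τ b j =>
    (hA b j).hasStrictDerivAt.localInverse _ _ _ (hr.dne b j) τ with hψ
  have hli : ∀ b j, ∀ᶠ ζ in 𝓝 (x b j), ψ (lg (F b) ζ) b j = ζ := fun b j =>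
    (hA b j).hasStrictDerivAt.eventually_left_inverse (hr.dne b j)
  have hri : ∀ b j, ∀ᶠ τ in 𝓝 t0, lg (F b) (ψ τ b j) = τ := fun b j => by
    have := (hA b j).hasStrictDerivAt.eventually_right_inverse (hr.dne b j)
    rwa [hr.val b j] at this
  have han : ∀ b j, AnalyticAt ℂ (fun τ => ψ τ b j) t0 := fun b j => by
    have := (hA b j).analyticAt_localInverse (hr.dne b j)
    rwa [hr.val b j] at this
  have hψ0 : ψ t0 = x := by
    funext b j
    have := (hli b j).self_of_nhds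
    rwa [hr.val b j] at this
  have hψc : ContinuousAt ψ t0 :=
    continuousAt_pi.2 fun b => continuousAt_pi.2 fun j => (han b j).continuousAt
  have hψt : ∀ b j, Tendsto (fun τ => ψ τ b j) (𝓝 t0) (𝓝 (x b j)) := fun b j => by
    have := (han b j).continuousAt.tendsto
    rwa [hψ0] at this
  -- points of the curve near `x` lie on the branch
  have hnear : ∀ᶠ y in 𝓝 x, Reg F y → ψ (tt F y) = y := by
    have : ∀ᶠ y : Tup n in 𝓝 x, ∀ b j, ψ (lg (F b) (y b j)) b j = y b j :=
      eventually_all.2 fun b => eventually_all.2 fun j =>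
        ((continuous_coord b j).tendsto x).eventually (hli b j)
    filter_upwards [this] with y hy hry
    funext b j
    rw [← hry.val b j]
    exact hy b j
  have httc : Tendsto (tt F : Tup n → ℂ) (𝓝 x) (𝓝 t0) :=
    (hA false 0).continuousAt.tendsto.comp ((continuous_coord false 0).tendsto x)
  have hfreq : ∃ᶠ τ in 𝓝[≠] t0, Reg F (ψ τ) ∧ Rr (ψ τ) ≠ Rr x := by
    have a1 := (mem_closure_iff_frequently.1 hacc).and_eventually hnear
    rw [frequently_nhdsWithin_iff]
    refine httc.frequently (a1.mono ?_)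
    rintro y ⟨⟨y1, y2⟩, y3⟩
    rw [y3 y1]
    refine ⟨⟨y1, y2⟩, fun h => y2 ?_⟩
    rw [← y3 y1, show tt F y = t0 from h, hψ0]
  have hRa : AnalyticAt ℂ (fun τ => Rr (ψ τ)) t0 := (han false 0).mul (han true 0)
  have hprod : ∀ j, ∀ᶠ τ in 𝓝 t0, ψ τ false j * ψ τ true j = Rr (ψ τ) := fun j =>
    (((han false j).mul (han true j)).frequently_eq_iff_eventually_eq hRa).1
      (hfreq.mono fun τ hτ => hτ.1.prod j)
  have hreg : ∀ᶠ τ in 𝓝 t0, Reg F (ψ τ) := by
    have a1 : ∀ᶠ τ in 𝓝 t0, ∀ b j, F b (ψ τ b j) ≠ 0 :=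
      eventually_all.2 fun b => eventually_all.2 fun j => (hψt b j).eventually
        ((hF b).diff.continuous.continuousAt.eventually_ne (hr.ne b j))
    have a2 : ∀ᶠ τ in 𝓝 t0, ∀ b j, deriv (lg (F b)) (ψ τ b j) ≠ 0 :=
      eventually_all.2 fun b => eventually_all.2 fun j => (hψt b j).eventually
        ((hA b j).deriv.continuousAt.eventually_ne (hr.dne b j))
    have a3 : ∀ᶠ τ in 𝓝 t0, ∀ b j, lg (F b) (ψ τ b j) = τ :=
      eventually_all.2 fun b => eventually_all.2 fun j => hri b j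
    have a4 := eventually_all.2 hprod
    have a5 : ∀ᶠ τ in 𝓝 t0, ∀ b i j, i ≠ j → ψ τ b i ≠ ψ τ b j :=
      eventually_all.2 fun b => eventually_all.2 fun i => eventually_all.2 fun j => by
        by_cases hij : i = j
        · simp [hij]
        · have := ((hψt b i).sub (hψt b j)).eventually_ne (b₂ := 0)
            (sub_ne_zero.2 fun h => hij (hr.inj b h))
          filter_upwards [this] with τ hτ _ using sub_ne_zero.1 hτ
    filter_upwards [a1, a2, a3, a4, a5] with τ b1 b2 b3 b4 b5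
    refine ⟨b1, b2, fun b j => (b3 b j).trans (b3 false 0).symm, b4, fun b i j hij => ?_⟩
    by_contra h
    exact b5 b i j h hij
  have hnc : ¬ ∀ᶠ τ in 𝓝 t0, Rr (ψ τ) = Rr (ψ t0) := by
    intro h
    obtain ⟨τ, h1, h2⟩ := (hfreq.and_eventually (h.filter_mono nhdsWithin_le_nhds)).exists
    exact h1.2 (by rw [h2, hψ0])
  have hopen : 𝓝 (Rr x) ≤ map (fun τ => Rr (ψ τ)) (𝓝 t0) := by
    have := hRa.eventually_constant_or_nhds_le_map_nhds.resolve_left hnc
    rwa [hψ0] at this
  refine ⟨ψ, hψc, hψ0, ?_, hopen, hli⟩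
  obtain ⟨r, hr0, hball⟩ := Metric.eventually_nhds_iff_ball.1
    ((hreg.eventually_nhds.and hRa.eventually_analyticAt).and
      (eventually_all.2 fun b => eventually_all.2 fun j => (han b j).eventually_analyticAt))
  filter_upwards [ball_mem_nhds t0 hr0] with τ hτ
  obtain ⟨⟨c1, c2⟩, c3⟩ := hball τ hτ
  refine ⟨c1.self_of_nhds, ?_⟩
  have hψcτ : ContinuousAt ψ τ :=
    continuousAt_pi.2 fun b => continuousAt_pi.2 fun j => (c3 b j).continuousAt
  have hnc2 : ¬ ∀ᶠ σ in 𝓝 τ, Rr (ψ σ) = Rr (ψ τ) := by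
    intro h
    have d1 : AnalyticOnNhd ℂ (fun σ => Rr (ψ σ)) (ball t0 r) := fun σ hσ => (hball σ hσ).1.2
    have d2 := d1.eqOn_of_preconnected_of_eventuallyEq analyticOnNhd_const
      (convex_ball t0 r).isPreconnected hτ h
    apply hnc
    filter_upwards [ball_mem_nhds t0 hr0] with σ hσ
    exact (d2 hσ).trans (d2 (mem_ball_self hr0)).symm
  rw [mem_closure_iff_frequently]
  refine hψcτ.tendsto.frequently ?_
  exact ((not_eventually.1 hnc2).and_eventually c1).mono fun σ hσ => ⟨hσ.2, hσ.1⟩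

theorem compact_limit {S : Set (Tup n)} {K : ℝ} {φ : Tup n → ℂ} (hφ : Continuous φ) {w : ℂ}
    (hw : w ∈ closure (φ '' S)) (hb : ∀ᶠ v in 𝓝 w, ∀ y ∈ S, φ y = v → ∀ b j, ‖y b j‖ ≤ K) :
    ∃ x ∈ closure S, φ x = w := by
  obtain ⟨O, hO, hOo, hwO⟩ := _root_.eventually_nhds_iff.1 hb
  set S' : Set (Tup n) := S ∩ φ ⁻¹' O with hS'
  have h1 : Bornology.IsBounded S' := by
    rw [isBounded_iff_forall_norm_le]
    refine ⟨max K 0, fun y hy => ?_⟩
    rw [pi_norm_le_iff_of_nonneg (le_max_right _ _)]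
    intro b
    rw [pi_norm_le_iff_of_nonneg (le_max_right _ _)]
    intro j
    exact (hO _ hy.2 y hy.1 rfl b j).trans (le_max_left _ _)
  have h2 : w ∈ closure (φ '' S') := by
    have := hOo.inter_closure ⟨hwO, hw⟩
    refine closure_mono ?_ this
    rintro _ ⟨a1, y, a2, rfl⟩
    exact ⟨y, ⟨a2, a1⟩, rfl⟩
  have h3 : closure (φ '' S') ⊆ φ '' closure S' :=
    closure_minimal (image_mono subset_closure) (h1.isCompact_closure.image hφ).isClosed
  obtain ⟨x, hx1, hx2⟩ := h3 h2
  exact ⟨x, closure_mono inter_subset_left hx1, hx2⟩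

/-- A set that is open, and closed relative to the complement of a countable set in a ball. -/
theorem ball_subset_closure {S B : Set ℂ} (hS : IsOpen S) (hB : B.Countable) {c : ℂ} {r : ℝ}
    (hr : 0 < r) (hc : c ∈ closure S) (hcl : ∀ z ∈ ball c r, z ∉ B → z ∈ closure S → z ∈ S) :
    ball c r ⊆ closure S := by
  have h1 : ball c r \ B ⊆ S := by
    refine (preconnected_ball_diff c hr hB).subset_of_closure_inter_subset hS ?_ ?_
    · obtain ⟨z, hz1, hz2⟩ := exists_mem_not_mem (isOpen_ball.inter hS)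
        (_root_.mem_closure_iff.1 hc _ isOpen_ball (mem_ball_self hr)) hB
      exact ⟨z, ⟨hz1.1, hz2⟩, hz1.2⟩
    · rintro z ⟨hz1, hz2, hz3⟩
      exact hcl z hz2 hz3 hz1
  refine subset_trans ?_ (closure_mono h1)
  exact (hB.dense_compl ℂ).open_subset_closure_inter isOpen_ball

/-- Step 1: the curve comes arbitrarily close to a coordinate hyperplane. -/
theorem small_coord (hF : ∀ b, Good (F b)) (hne : (Acc F n).Nonempty) {δ : ℝ} (hδ : 0 < δ) :
    ∃ x ∈ Acc F n, ∃ b j, ‖x b j‖ < δ := by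
  by_contra hcon
  push Not at hcon
  set E : Set ℂ := Rr '' Acc F n with hE
  have hEo : IsOpen E := by
    rw [isOpen_iff_mem_nhds]
    rintro _ ⟨x, hx, rfl⟩
    obtain ⟨ψ, -, -, h3, h4, -⟩ := local_param hF hx
    apply h4
    rw [mem_map]
    filter_upwards [h3] with τ hτ using ⟨_, hτ, rfl⟩
  set A : Bool → Set ℂ := fun b => {z | F b z = 0} ∪ {z | F b z ≠ 0 ∧ lg (F b) z ∈ CV F} with hA
  have hAc : ∀ b, (A b).Countable := fun b => (hF b).countable_zeros.union (countable_pre_CV hF b)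
  set B : Set ℂ := image2 (· * ·) (A false) (A true) with hB
  have hBc : B.Countable := (hAc false).image2 (hAc true) _
  have hcl : ∀ w, w ∉ B → w ∈ closure E → w ∈ E := by
    intro w hwB hw
    obtain ⟨x, hx1, hx2⟩ := compact_limit (K := (‖w‖ + 1) / δ) continuous_Rr hw (by
      filter_upwards [continuous_norm.continuousAt.eventually_lt_const
        (show ‖w‖ < ‖w‖ + 1 by linarith)] with v hv y hy hyv b j
      have a1 := hy.1.prod' b j
      have a2 := hcon y hy (!b) j
      rw [le_div_iff₀ hδ]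
      have a3 : ‖y b j‖ * ‖y (!b) j‖ = ‖v‖ := by rw [← norm_mul, a1, hyv]
      nlinarith [norm_nonneg (y b j)])
    have h0 : ∀ b j, x b j ≠ 0 := by
      intro b j h
      have : δ ≤ ‖x b j‖ := closure_minimal (t := {y : Tup n | δ ≤ ‖y b j‖})
        (fun y hy => hcon y hy b j)
        (isClosed_le continuous_const (continuous_coord b j).norm) hx1
      rw [h, norm_zero] at this
      linarith
    have h1 : ∃ b, x b 0 ∉ A b := by
      by_contra h
      push Not at h
      exact hwB ⟨_, h false, _, h true, hx2⟩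
    obtain ⟨b, hb⟩ := h1
    simp only [hA, mem_union, mem_ofPred_eq, not_or, not_and] at hb
    exact ⟨x, reg_of_closure hF hx1 h0 hb.1 (hb.2 hb.1), hx2⟩
  obtain ⟨x0, hx0⟩ := hne
  have h2 := ball_subset_closure hEo hBc (c := Rr x0) (r := ‖Rr x0‖ + 1) (by positivity)
    (subset_closure ⟨x0, hx0, rfl⟩) fun z _ => hcl z
  have h3 : (0 : ℂ) ∈ closure E := h2 (by simp)
  have h4 : δ * δ ≤ ‖(0 : ℂ)‖ := closure_minimal (t := {w : ℂ | δ * δ ≤ ‖w‖}) (by
    rintro _ ⟨y, hy, rfl⟩
    change δ * δ ≤ ‖y false 0 * y true 0‖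
    rw [norm_mul]
    exact mul_le_mul (hcon y hy _ _) (hcon y hy _ _) hδ.le (norm_nonneg _))
    (isClosed_le continuous_const continuous_norm) h3
  rw [norm_zero] at h4
  nlinarith

end Pool.Agent.H768Z.MaxMod
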