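import Pool.Agent.H768Z.MaxModC

/-!
The curve is empty as soon as the tuples are long enough.
-/

set_option autoImplicit false

open Set Filter Topology Metric

namespace Pool.Agent.H768Z.MaxMod

variable {F : Bool → ℂ → ℂ}

theorem small_value (hF : ∀ b, Good (F b)) {η : ℝ} (hη : 0 < η) :
    ∃ δ > 0, ∀ b (z : ℂ), ‖z‖ < δ → ‖lg (F b) z‖ < η := by
  have : ∀ᶠ z in 𝓝 (0 : ℂ), ∀ b, ‖lg (F b) z‖ < η := eventually_all.2 fun b =>
    ((hF b).analyticAt_lg (hF b).ne0).continuousAt.norm.eventually_lt_const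
      (by simpa [lg_zero] using hη)
  obtain ⟨δ, hδ, h⟩ := Metric.eventually_nhds_iff_ball.1 this
  exact ⟨δ, hδ, fun b z hz => h z (mem_ball_zero_iff.2 hz) b⟩

theorem acc_empty (hF : ∀ b, Good (F b)) : ∃ N : ℕ, ∀ n, N ≤ n → Acc F n = ∅ := by
  classical
  choose e c ρ' hc hρ' hlow' hval' using fun b => (hF b).near_zero
  refine ⟨e false + e true, fun n hn => ?_⟩
  by_contra hne
  rw [← Ne, ← nonempty_iff_ne_empty] at hne
  set ρ : ℝ := min (ρ' false) (ρ' true) with hρdef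
  have hρ : 0 < ρ := lt_min (hρ' _) (hρ' _)
  have hρle : ∀ b, ρ ≤ ρ' b := fun b => by
    cases b
    · exact min_le_left _ _
    · exact min_le_right _ _
  have hlow : ∀ b (z : ℂ), ‖z‖ ≤ ρ → c b * ‖z‖ ^ e b ≤ ‖lg (F b) z‖ := fun b z hz =>
    (hlow' b z (hz.trans (hρle b))).2
  set ε : ℝ := min (min (c false * ρ ^ e false) (c true * ρ ^ e true)) (1 / 2) with hεdef
  have hε : 0 < ε := lt_min (lt_min (mul_pos (hc _) (pow_pos hρ _)) (mul_pos (hc _) (pow_pos hρ _)))
    (by norm_num)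
  have hε1 : ε ≤ 1 / 2 := min_le_right _ _
  have hεb : ∀ b (z : ℂ), ‖z‖ = ρ → ε ≤ ‖lg (F b) z‖ := fun b z hz => by
    refine le_trans ?_ (hlow b z hz.le)
    rw [hz]
    cases b
    · exact (min_le_left _ _).trans (min_le_left _ _)
    · exact (min_le_left _ _).trans (min_le_right _ _)
  set S : Bool → Fin (n + 1) → Fin (n + 1) → Set (Tup n) := fun b i j =>
    {x | x ∈ Acc F n ∧ ‖tt F x‖ < ε ∧ ‖x b i‖ < ρ ∧ ∀ b', ρ < ‖x b' j‖} with hS
  have hex : ∃ b i j, ∀ η > 0, ∃ x ∈ S b i j, ‖tt F x‖ < η := by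
    by_contra hcon
    push Not at hcon
    choose η hη hηS using hcon
    have h1 : ∀ᶠ s in 𝓝[>] (0 : ℝ), ∀ b i j, s < η b i j :=
      eventually_all.2 fun b => eventually_all.2 fun i => eventually_all.2 fun j =>
        (eventually_lt_nhds (hη b i j)).filter_mono nhdsWithin_le_nhds
    have h2 : ∀ᶠ s in 𝓝[>] (0 : ℝ), s < ε := (eventually_lt_nhds hε).filter_mono nhdsWithin_le_nhds
    obtain ⟨s, ⟨s1, s2⟩, s3⟩ := ((h1.and h2).and self_mem_nhdsWithin).exists
    obtain ⟨δ, hδ, hδs⟩ := small_value hF (show 0 < s from s3)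
    obtain ⟨x, hx, b, i, hxi⟩ := small_coord hF hne (lt_min hδ hρ)
    have h3 : ‖tt F x‖ < s := by
      rw [← hx.1.val b i]
      exact hδs b _ (hxi.trans_le (min_le_left _ _))
    have h4 : ∀ b', (Finset.univ.filter fun k => ‖x b' k‖ ≤ ρ).card ≤ e b' := by
      intro b'
      rw [← Finset.card_image_of_injective _ (hx.1.inj b')]
      apply hval' b' (tt F x)
      intro z hz
      obtain ⟨k, hk, rfl⟩ := Finset.mem_image.1 hz
      exact ⟨(Finset.mem_filter.1 hk).2.trans (hρle b'), hx.1.val b' k⟩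
    have h5 : ((Finset.univ.filter fun k => ‖x false k‖ ≤ ρ) ∪
        (Finset.univ.filter fun k => ‖x true k‖ ≤ ρ)).card < (Finset.univ : Finset (Fin (n + 1))).card := by
      have := Finset.card_union_le (Finset.univ.filter fun k => ‖x false k‖ ≤ ρ)
        (Finset.univ.filter fun k => ‖x true k‖ ≤ ρ)
      have a1 := h4 false
      have a2 := h4 true
      rw [Finset.card_univ, Fintype.card_fin]
      omega
    obtain ⟨j, -, hj⟩ := Finset.exists_mem_notMem_of_card_lt_card h5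
    simp only [Finset.mem_union, Finset.mem_filter, Finset.mem_univ, true_and, not_or,
      not_le] at hj
    have h6 : x ∈ S b i j := ⟨hx, h3.trans s2, hxi.trans_le (min_le_right _ _), fun b' => by
      cases b'
      · exact hj.1
      · exact hj.2⟩
    linarith [hηS b i j x h6, s1 b i j]
  obtain ⟨b, i, j, hsm⟩ := hex
  set φ : Tup n → ℂ := fun x => x (!b) i with hφ
  have hφc : Continuous φ := continuous_coord _ _
  set SS : Set ℂ := φ '' S b i j with hSS
  set V : Set ℂ := {ζ | F (!b) ζ ≠ 0 ∧ ‖lg (F (!b)) ζ‖ < ε} with hV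
  have hVo : IsOpen V := by
    rw [isOpen_iff_mem_nhds]
    rintro ζ ⟨a1, a2⟩
    filter_upwards [(hF (!b)).diff.continuous.continuousAt.eventually_ne a1,
      ((hF (!b)).analyticAt_lg a1).continuousAt.norm.eventually_lt_const a2] with w w1 w2
      using ⟨w1, w2⟩
  have hSSo : IsOpen SS := by
    rw [isOpen_iff_mem_nhds]
    rintro _ ⟨x, hx, rfl⟩
    obtain ⟨ψ, h1, h2, h3, -, h5⟩ := local_param hF hx.1
    have hψt : Tendsto ψ (𝓝 (tt F x)) (𝓝 x) := by
      have := h1.tendsto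
      rwa [h2] at this
    have httc : ContinuousAt (tt F : Tup n → ℂ) x :=
      ((hF false).analyticAt_lg (hx.1.1.ne false 0)).continuousAt.tendsto.comp
        ((continuous_coord false 0).tendsto x)
    have a1 : ∀ᶠ y in 𝓝 x, ‖tt F y‖ < ε ∧ ‖y b i‖ < ρ ∧ ∀ b', ρ < ‖y b' j‖ :=
      (httc.norm.eventually_lt_const hx.2.1).and
        (((continuous_coord b i).norm.continuousAt.eventually_lt_const hx.2.2.1).and
          (eventually_all.2 fun b' =>
            (continuous_coord b' j).norm.continuousAt.eventually_const_lt (hx.2.2.2 b')))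
    have a2 : ∀ᶠ τ in 𝓝 (tt F x), ψ τ ∈ S b i j := by
      filter_upwards [h3, hψt.eventually a1] with τ t1 t2 using ⟨t1, t2⟩
    have a3 : Tendsto (lg (F (!b))) (𝓝 (x (!b) i)) (𝓝 (tt F x)) := by
      have := ((hF (!b)).analyticAt_lg (hx.1.1.ne (!b) i)).continuousAt.tendsto
      rwa [hx.1.1.val] at this
    filter_upwards [a3.eventually a2, h5 (!b) i] with ζ z1 z2 using ⟨_, z1, z2⟩
  have hR : ∀ y ∈ S b i j, ρ * ρ ≤ ‖y b i‖ * ‖φ y‖ := by
    intro y hy
    rw [← norm_mul, hy.1.1.prod' b i, ← hy.1.1.prod j, norm_mul]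
    exact mul_le_mul (hy.2.2.2 _).le (hy.2.2.2 _).le hρ.le (norm_nonneg _)
  set B : Set ℂ := {z | F (!b) z ≠ 0 ∧ lg (F (!b)) z ∈ CV F} with hB
  have hcl : ∀ ζ ∈ V, ζ ∉ B → ζ ∈ closure SS → ζ ∈ SS := by
    intro ζ hζV hζB hζ
    set L : ℝ := ‖ζ‖ + 1 with hL
    have hL0 : 0 < L := by positivity
    obtain ⟨δ, hδ, hδs⟩ := small_value hF (show 0 < c b * (ρ * ρ / L) ^ e b from
      mul_pos (hc b) (by positivity))
    have hlo : ∀ y ∈ S b i j, ‖φ y‖ < L → ∀ b' j', δ ≤ ‖y b' j'‖ := by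
      intro y hy hyL b' j'
      by_contra hcon
      push Not at hcon
      have a1 := hδs b' _ hcon
      rw [hy.1.1.val, ← hy.1.1.val b i] at a1
      have a2 := hlow b _ hy.2.2.1.le
      have a3 : ρ * ρ / L ≤ ‖y b i‖ := by
        rw [div_le_iff₀ hL0]
        nlinarith [hR y hy, norm_nonneg (y b i)]
      have a4 : c b * (ρ * ρ / L) ^ e b ≤ c b * ‖y b i‖ ^ e b := by
        have := hc b
        gcongr
      linarith
    obtain ⟨x, hx1, hx2⟩ := compact_limit (K := ρ * L / δ) hφc hζ (by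
      filter_upwards [continuous_norm.continuousAt.eventually_lt_const
        (show ‖ζ‖ < L by linarith)] with v hv y hy hyv b' j'
      have a1 := hlo y hy (by rwa [hyv]) (!b') j'
      have a2 : ‖y b' j'‖ * ‖y (!b') j'‖ = ‖y b i‖ * ‖v‖ := by
        rw [← norm_mul, hy.1.1.prod', ← hy.1.1.prod' b i, norm_mul, ← hyv]
      have a3 : ‖y b i‖ * ‖v‖ ≤ ρ * L :=
        mul_le_mul hy.2.2.1.le hv.le (norm_nonneg _) hρ.le
      rw [le_div_iff₀ hδ]
      nlinarith [norm_nonneg (y b' j')])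
    have hfr := mem_closure_iff_frequently.1 hx1
    have h0 : ∀ b' j', x b' j' ≠ 0 := by
      intro b' j' h
      have a1 : ∀ᶠ y in 𝓝 x, ‖φ y‖ < L :=
        hφc.norm.continuousAt.eventually_lt_const (show ‖φ x‖ < L by rw [hx2]; linarith)
      have a2 : ∀ᶠ y : Tup n in 𝓝 x, ‖y b' j'‖ < δ :=
        (continuous_coord b' j').norm.continuousAt.eventually_lt_const 
          (show ‖x b' j'‖ < δ by rw [h]; simpa using hδ)
      obtain ⟨y, y1, y2, y3⟩ := (hfr.and_eventually (a1.and a2)).exists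
      linarith [hlo y y1 y2 b' j']
    have hx2' : x (!b) i = ζ := hx2
    have hxA : x ∈ Acc F n :=
      reg_of_closure hF (closure_mono (fun y hy => hy.1) hx1) h0 (b0 := !b) (j0 := i)
        (by rw [hx2']; exact hζV.1) (by rw [hx2']; exact fun h => hζB ⟨hζV.1, h⟩)
    have ht : ‖tt F x‖ < ε := by
      rw [← hxA.1.val (!b) i, hx2']
      exact hζV.2
    have hneρ : ∀ b' j', ‖x b' j'‖ ≠ ρ := by
      intro b' j' h
      have := hεb b' _ h
      rw [hxA.1.val] at this
      linarith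
    refine ⟨x, ⟨hxA, ht, lt_of_le_of_ne ?_ (hneρ b i), fun b' => lt_of_le_of_ne ?_ (hneρ b' j).symm⟩,
      hx2⟩
    · exact closure_minimal (t := {y : Tup n | ‖y b i‖ ≤ ρ}) (fun y hy => hy.2.2.1.le)
        (isClosed_le (continuous_coord b i).norm continuous_const) hx1
    · exact closure_minimal (t := {y : Tup n | ρ ≤ ‖y b' j‖}) (fun y hy => (hy.2.2.2 b').le)
        (isClosed_le continuous_const (continuous_coord b' j).norm) hx1
  have hUo : IsOpen (V ∩ closure SS) := by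
    rw [Metric.isOpen_iff]
    rintro p ⟨p1, p2⟩
    obtain ⟨r, hr, hrV⟩ := Metric.isOpen_iff.1 hVo p p1
    exact ⟨r, hr, subset_inter hrV (ball_subset_closure hSSo (countable_pre_CV hF (!b)) hr p2
      fun z hz => hcl z (hrV hz))⟩
  refine (hF (!b)).tract hUo (e := e b) hρ (show 0 < c b * (ρ * ρ) ^ e b from
    mul_pos (hc b) (by positivity)) hε hε1 ?_ ?_ ?_
  · rintro ζ ⟨a1, a2⟩
    refine ⟨?_, a1.1, a1.2, ?_⟩
    · refine closure_minimal (t := {w : ℂ | ρ ≤ ‖w‖}) ?_
        (isClosed_le continuous_const continuous_norm) a2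
      rintro _ ⟨y, hy, rfl⟩
      have b1 := hR y hy
      have b2 := hy.2.2.1
      change ρ ≤ ‖φ y‖
      by_contra hcon
      push Not at hcon
      nlinarith [norm_nonneg (φ y), norm_nonneg (y b i)]
    · by_contra hcon
      push Not at hcon
      have b1 : ContinuousAt (fun w => ‖lg (F (!b)) w‖ * ‖w‖ ^ e b) ζ :=
        ((hF (!b)).analyticAt_lg a1.1).continuousAt.norm.mul (continuous_norm.continuousAt.pow _)
      obtain ⟨w, ⟨y, hy, rfl⟩, w2⟩ := ((mem_closure_iff_frequently.1 a2).and_eventually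
        (b1.eventually_lt_const hcon)).exists
      have b2 : lg (F (!b)) (φ y) = lg (F b) (y b i) := (hy.1.1.val _ _).trans (hy.1.1.val _ _).symm
      rw [b2] at w2
      have b3 := hlow b _ hy.2.2.1.le
      have b4 : c b * (ρ * ρ) ^ e b ≤ c b * (‖y b i‖ * ‖φ y‖) ^ e b := by
        have := hc b
        have := hR y hy
        gcongr
      rw [mul_pow ‖y b i‖, ← mul_assoc] at b4
      have b5 : c b * ‖y b i‖ ^ e b * ‖φ y‖ ^ e b ≤ ‖lg (F b) (y b i)‖ * ‖φ y‖ ^ e b := by gcongr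
      linarith
  · intro ζ a1 a2 a3
    refine ⟨⟨a2, a3⟩, ?_⟩
    have := closure_mono (inter_subset_right (s := V) (t := closure SS)) a1
    rwa [closure_closure] at this
  · intro η hη
    obtain ⟨x, hx, hxη⟩ := hsm η hη
    have a1 : lg (F (!b)) (φ x) = tt F x := hx.1.1.val _ _
    refine ⟨φ x, ⟨⟨hx.1.1.ne _ _, by rw [a1]; exact hx.2.1⟩, subset_closure ⟨x, hx, rfl⟩⟩, ?_⟩
    rwa [a1]

end Pool.Agent.H768Z.MaxMod
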