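import Pool.Agent.H768Z.MaxModD

/-!
The number of points of maximum modulus is bounded for almost every radius.
-/

set_option autoImplicit false

open Set Filter Topology Metric
open scoped ComplexConjugate

namespace Pool.Agent.H768Z.MaxMod

/-- The maximum modulus on the closed disc. -/
noncomputable def MM (F : ℂ → ℂ) (s : ℝ) : ℝ := sSup ((fun w => ‖F w‖) '' closedBall 0 s)

variable {F : ℂ → ℂ}

theorem Good.bdd (hF : Good F) (s : ℝ) : BddAbove ((fun w => ‖F w‖) '' closedBall 0 s) :=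
  ((isCompact_closedBall (0 : ℂ) s).image hF.diff.continuous.norm).bddAbove

theorem Good.le_MM (hF : Good F) {s : ℝ} {w : ℂ} (hw : ‖w‖ ≤ s) : ‖F w‖ ≤ MM F s :=
  le_csSup (hF.bdd s) ⟨w, mem_closedBall_zero_iff.2 hw, rfl⟩

theorem Good.monotone_MM (hF : Good F) : Monotone (MM F) := by
  intro s t hst
  refine Real.sSup_le ?_ (Real.sSup_nonneg (by rintro _ ⟨w, -, rfl⟩; exact norm_nonneg _))
  rintro _ ⟨w, hw, rfl⟩
  exact hF.le_MM ((mem_closedBall_zero_iff.1 hw).trans hst)

theorem Good.max_point (hF : Good F) {r : ℝ} (hr : 0 < r) (hM : DifferentiableAt ℝ (MM F) r)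
    {z : ℂ} (hz : ‖z‖ = r) (hmax : ∀ w : ℂ, ‖w‖ = r → ‖F w‖ ≤ ‖F z‖) :
    F z ≠ 0 ∧ lg F z = ((r * deriv (MM F) r / MM F r : ℝ) : ℂ) := by
  have h1 : ∀ w : ℂ, ‖w‖ ≤ r → ‖F w‖ ≤ ‖F z‖ := by
    intro w hw
    refine Complex.norm_le_of_forall_mem_frontier_norm_le (U := ball 0 r) isBounded_ball
      hF.diff.diffContOnCl (fun v hv => hmax v ?_) ?_
    · rwa [frontier_ball _ hr.ne', mem_sphere_zero_iff_norm] at hv
    · rw [closure_ball _ hr.ne']
      exact mem_closedBall_zero_iff.2 hw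
  have hMz : MM F r = ‖F z‖ := by
    apply le_antisymm _ (hF.le_MM hz.le)
    refine Real.sSup_le ?_ (norm_nonneg _)
    rintro _ ⟨w, hw, rfl⟩
    exact h1 w (mem_closedBall_zero_iff.1 hw)
  have hpos : 0 < ‖F z‖ := lt_of_lt_of_le (norm_pos_iff.2 hF.ne0) (h1 0 (by simpa using hr.le))
  have hFz : F z ≠ 0 := norm_pos_iff.1 hpos
  refine ⟨hFz, ?_⟩
  set a : ℂ := (‖F z‖ : ℂ) / F z with ha
  have ha1 : ‖a‖ = 1 := by
    rw [ha, norm_div, Complex.norm_real, Real.norm_eq_abs, abs_of_pos hpos, div_self hpos.ne']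
  have hre : ∀ w, (a * F w).re ≤ ‖F w‖ := fun w => by
    have := Complex.re_le_norm (a * F w)
    rwa [norm_mul, ha1, one_mul] at this
  have haz : (a * F z).re = ‖F z‖ := by
    rw [ha, div_mul_cancel₀ _ hFz, Complex.ofReal_re]
  have hr' : (r : ℂ) ≠ 0 := by exact_mod_cast hr.ne'
  have hkey : a * (deriv F z * z) = (‖F z‖ : ℂ) * lg F z := by
    rw [ha, lg]
    field_simp
  -- the radial direction
  have hrad : HasDerivAt (fun s : ℝ => (a * F (s * (z / r))).re)
      (a * (deriv F z * (z / r))).re r := by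
    have e1 : (r : ℂ) * (z / r) = z := by field_simp
    have d1 : HasDerivAt (fun s : ℂ => s * (z / r)) (z / r) (r : ℂ) := by
      simpa using (hasDerivAt_id (r : ℂ)).mul_const (z / r)
    have d2 : HasDerivAt F (deriv F z) ((r : ℂ) * (z / r)) := by
      rw [e1]; exact (hF.diff z).hasDerivAt
    exact ((d2.comp (r : ℂ) d1).const_mul a).real_of_complex
  have hmin : IsLocalMin (fun s : ℝ => MM F s - (a * F (s * (z / r))).re) r := by
    filter_upwards [lt_mem_nhds hr] with s hs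
    have e1 : (r : ℂ) * (z / r) = z := by field_simp
    have e2 : ‖(s : ℂ) * (z / r)‖ ≤ s := by
      rw [norm_mul, norm_div, hz, Complex.norm_real, Complex.norm_real, Real.norm_eq_abs,
        Real.norm_eq_abs, abs_of_pos hs, abs_of_pos hr, div_self hr.ne', mul_one]
    simp only [e1, haz, hMz, sub_self, sub_nonneg]
    exact (hre _).trans (hF.le_MM e2)
  have h2 := hmin.hasDerivAt_eq_zero (hM.hasDerivAt.sub hrad)
  -- the angular direction
  have hang : HasDerivAt (fun s : ℝ => (a * F (z * Complex.exp (s * Complex.I))).re)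
      (a * (deriv F z * (z * Complex.I))).re 0 := by
    have d1 : HasDerivAt (fun s : ℂ => z * Complex.exp (s * Complex.I)) (z * Complex.I)
        ((0 : ℝ) : ℂ) := by
      simpa using (((hasDerivAt_id ((0 : ℝ) : ℂ)).mul_const Complex.I).cexp).const_mul z
    have d2 : HasDerivAt F (deriv F z) (z * Complex.exp (((0 : ℝ) : ℂ) * Complex.I)) := by
      simpa using (hF.diff z).hasDerivAt
    exact ((d2.comp ((0 : ℝ) : ℂ) d1).const_mul a).real_of_complex
  have hmx : IsLocalMax (fun s : ℝ => (a * F (z * Complex.exp (s * Complex.I))).re) 0 := by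
    refine Eventually.of_forall fun s => ?_
    simp only [Complex.ofReal_zero, zero_mul, Complex.exp_zero, mul_one, haz]
    refine (hre _).trans (hmax _ ?_)
    rw [norm_mul, Complex.norm_exp_ofReal_mul_I, mul_one, hz]
  have h3 := hmx.hasDerivAt_eq_zero hang
  have e3 : a * (deriv F z * (z * Complex.I)) = (‖F z‖ : ℂ) * lg F z * Complex.I := by
    rw [← hkey]; ring
  have e4 : a * (deriv F z * (z / r)) = ((‖F z‖ / r : ℝ) : ℂ) * lg F z := by
    push_cast
    linear_combination hkey / (r : ℂ)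
  rw [e3] at h3
  rw [e4, Complex.re_ofReal_mul] at h2
  simp only [Complex.mul_re, Complex.ofReal_re, Complex.ofReal_im, Complex.mul_im, Complex.I_re,
    Complex.I_im, zero_mul, mul_zero, mul_one, add_zero, sub_zero, zero_sub, neg_eq_zero,
    mul_eq_zero, hpos.ne', false_or] at h3
  apply Complex.ext
  · rw [Complex.ofReal_re, hMz, sub_eq_zero.1 h2]
    field_simp
  · rw [Complex.ofReal_im, h3]

theorem Good.conj_conj (hF : Good F) : Good (conj ∘ F ∘ conj) := by
  refine ⟨fun z => differentiableAt_conj_conj_iff.2 (hF.diff _), by simpa using hF.ne0, fun h => ?_⟩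
  apply hF.nonconst
  intro z
  have := h (conj z)
  apply (starRingEnd ℂ).injective
  simpa using this

theorem lg_conj (F : ℂ → ℂ) (z : ℂ) : lg (conj ∘ F ∘ conj) (conj z) = conj (lg F z) := by
  simp [lg]

/-- For all radii outside a countable set at which the maximum modulus is differentiable, the
number of points of maximum modulus is bounded. -/
theorem Good.countable_radii (hF : Good F) : ∃ N : ℕ,
    {r : ℝ | 0 < r ∧ DifferentiableAt ℝ (MM F) r ∧
      (N : ℕ∞) ≤ {z : ℂ | ‖z‖ = r ∧ ∀ w : ℂ, ‖w‖ = r → ‖F w‖ ≤ ‖F z‖}.encard}.Countable := by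
  set FF : Bool → ℂ → ℂ := fun b => cond b (conj ∘ F ∘ conj) F with hFF
  have hG : ∀ b, Good (FF b) := fun b => by
    cases b
    · exact hF
    · exact hF.conj_conj
  obtain ⟨n, hn⟩ := acc_empty hG
  have hemp := hn n le_rfl
  refine ⟨n + 1, ?_⟩
  set C : Set ℝ := ⋃ b, (fun z : ℂ => ‖z‖) '' {z | FF b z ≠ 0 ∧ deriv (lg (FF b)) z = 0} with hC
  have hCc : C.Countable := countable_iUnion fun b => (hG b).countable_crit.image _
  set P : Set (Tup n) := {x | Reg FF x} with hP
  have hPc : (Rr '' P).Countable := by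
    have h1 : ∀ x ∈ P, ∃ O : Set (Tup n), IsOpen O ∧ x ∈ O ∧ ∀ y ∈ O, y ∈ P → Rr y = Rr x := by
      intro x hx
      have : x ∉ closure {y | Reg FF y ∧ Rr y ≠ Rr x} := fun h =>
        (hemp ▸ (⟨hx, h⟩ : x ∈ Acc FF n) : x ∈ (∅ : Set (Tup n)))
      refine ⟨_, isClosed_closure.isOpen_compl, this, fun y hy hyP => ?_⟩
      by_contra h
      exact hy (subset_closure ⟨hyP, h⟩)
    choose! O hO1 hO2 hO3 using h1
    obtain ⟨T, hT1, hT2, hT3⟩ := (HereditarilyLindelofSpace.isLindelof P).elim_nhds_subcover O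
      (fun x hx => (hO1 x hx).mem_nhds (hO2 x hx))
    refine (hT1.image Rr).mono ?_
    rintro _ ⟨y, hy, rfl⟩
    obtain ⟨x, hx, hyx⟩ := mem_iUnion₂.1 (hT3 hy)
    exact ⟨x, hx, (hO3 x (hT2 x hx) y hyx hy).symm⟩
  refine (hCc.union (hPc.image fun w : ℂ => √‖w‖)).mono ?_
  rintro r ⟨hr, hd, hcard⟩
  by_cases hrC : r ∈ C
  · exact Or.inl hrC
  right
  obtain ⟨t, ht1, ht2⟩ := exists_subset_encard_eq hcard
  have htf : t.Finite := finite_of_encard_eq_coe ht2
  have hcard2 : htf.toFinset.card = n + 1 := by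
    have := htf.encard_eq_coe_toFinset_card
    rw [ht2] at this
    exact_mod_cast this.symm
  set u : Fin (n + 1) → ℂ := fun j => (htf.toFinset.equivFinOfCardEq hcard2).symm j with hu
  have hut : ∀ j, u j ∈ t := fun j =>
    htf.mem_toFinset.1 ((htf.toFinset.equivFinOfCardEq hcard2).symm j).2
  have huinj : Function.Injective u := fun i j hij =>
    (htf.toFinset.equivFinOfCardEq hcard2).symm.injective (Subtype.ext hij)
  have hmp := fun j => hF.max_point hr hd (ht1 (hut j)).1 (ht1 (hut j)).2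
  set x : Tup n := fun b j => cond b (conj (u j)) (u j) with hx
  have hnorm : ∀ b j, ‖x b j‖ = r := fun b j => by
    cases b
    · exact (ht1 (hut j)).1
    · exact (Complex.norm_conj _).trans (ht1 (hut j)).1
  have hne : ∀ b j, FF b (x b j) ≠ 0 := fun b j => by
    cases b
    · exact (hmp j).1
    · simpa [hFF, hx] using (hmp j).1
  have hprod : ∀ j, x false j * x true j = ((r ^ 2 : ℝ) : ℂ) := fun j => by
    change u j * conj (u j) = _
    rw [Complex.mul_conj', (ht1 (hut j)).1]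
    push_cast
    rfl
  refine ⟨Rr x, ⟨x, ⟨hne, fun b j h => hrC ?_, fun b j => ?_, fun j => ?_, fun b => ?_⟩, rfl⟩, ?_⟩
  · exact mem_iUnion.2 ⟨b, x b j, ⟨hne b j, h⟩, hnorm b j⟩
  · change _ = lg F (u 0)
    rw [(hmp 0).2]
    cases b
    · exact (hmp j).2
    · change lg (conj ∘ F ∘ conj) (conj (u j)) = _
      rw [lg_conj, (hmp j).2, Complex.conj_ofReal]
  · exact (hprod j).trans (hprod 0).symm
  · cases b
    · exact huinj
    · exact (starRingEnd ℂ).injective.comp huinj
  · change √‖x false 0 * x true 0‖ = r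
    rw [norm_mul, hnorm, hnorm, Real.sqrt_mul_self hr.le]

theorem factor {f : ℂ → ℂ} (hf : Differentiable ℂ f)
    (h : ¬ ∃ (c : ℂ) (m : ℕ), ∀ z, f z = c * z ^ m) :
    ∃ (m : ℕ) (F : ℂ → ℂ), Good F ∧ ∀ z, f z = z ^ m * F z := by
  classical
  have h1 : ¬ ∀ᶠ z in 𝓝 (0 : ℂ), f z = 0 := by
    intro h0
    apply h
    refine ⟨0, 0, fun z => ?_⟩
    have := (AnalyticOnNhd.eqOn_zero_of_preconnected_of_eventuallyEq_zero
      (fun w _ => hf.analyticAt w) isPreconnected_univ (mem_univ 0) h0) (mem_univ z)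
    simpa using this
  obtain ⟨m, G, hG, hG0, hfG⟩ := (hf.analyticAt 0).exists_eventuallyEq_pow_smul_nonzero_iff.2 h1
  set F : ℂ → ℂ := fun z => if z = 0 then G 0 else f z / z ^ m with hF
  have hfF : ∀ z, f z = z ^ m * F z := by
    intro z
    by_cases hz : z = 0
    · subst hz
      simpa [hF] using hfG.self_of_nhds
    · simp only [hF, if_neg hz]
      field_simp
  refine ⟨m, F, ⟨fun z => ?_, by simpa [hF] using hG0, fun hc => h ⟨F 0, m, fun z => ?_⟩⟩, hfF⟩
  · by_cases hz : z = 0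
    · subst hz
      refine hG.differentiableAt.congr_of_eventuallyEq ?_
      filter_upwards [hfG] with w hw
      by_cases hw0 : w = 0
      · simp [hF, hw0]
      · simp only [hF, if_neg hw0, hw, sub_zero, smul_eq_mul]
        field_simp
    · have d : DifferentiableAt ℂ (fun w => f w / w ^ m) z :=
        (hf z).div (differentiableAt_id.pow m) (pow_ne_zero _ hz)
      refine d.congr_of_eventuallyEq ?_
      filter_upwards [isOpen_ne.mem_nhds hz] with w hw
      simp only [hF, if_neg hw]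
  · rw [hfF, hc z, mul_comm]

/-- For an entire function that is not a monomial, the number of points of maximum modulus is
bounded for almost every radius. -/
theorem main {f : ℂ → ℂ} (hf : Differentiable ℂ f)
    (h : ¬ ∃ (c : ℂ) (m : ℕ), ∀ z, f z = c * z ^ m) : ∃ N : ℕ, ∀ᵐ r : ℝ, 0 < r →
      {z : ℂ | ‖z‖ = r ∧ ∀ w : ℂ, ‖w‖ = r → ‖f w‖ ≤ ‖f z‖}.encard < N := by
  obtain ⟨m, F, hF, hfF⟩ := factor hf h
  obtain ⟨N, hN⟩ := hF.countable_radii
  refine ⟨N, ?_⟩
  filter_upwards [hN.ae_notMem MeasureTheory.volume, hF.monotone_MM.ae_differentiableAt]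
    with r h1 h2 hr
  by_contra hcon
  push Not at hcon
  refine h1 ⟨hr, h2, ?_⟩
  have e : {z : ℂ | ‖z‖ = r ∧ ∀ w : ℂ, ‖w‖ = r → ‖F w‖ ≤ ‖F z‖} =
      {z : ℂ | ‖z‖ = r ∧ ∀ w : ℂ, ‖w‖ = r → ‖f w‖ ≤ ‖f z‖} := by
    ext z
    simp only [mem_ofPred_eq, hfF, norm_mul, norm_pow]
    refine and_congr_right fun hz => forall_congr' fun w => forall_congr' fun hw => ?_
    rw [hz, hw]
    exact (mul_le_mul_iff_right₀ (pow_pos hr m)).symm
  rw [e]
  exact hcon

end Pool.Agent.H768Z.MaxMod
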